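import Pool.Agent.H.MP_cfc732_al.NoRcs

set_option autoImplicit false

namespace Pool.Agent.H.MP_cfc732_al

open Equiv

def pt : Perm ℤ := Equiv.addRight 1
def ps : Perm ℤ := swap 0 1 * pt
def pz : Perm ℤ := swap 1 2 * ps
def pa : Perm ℤ := swap 2 3

theorem pt_apply (x : ℤ) : pt x = x + 1 := rfl
theorem ps_apply (x : ℤ) : ps x = if x = -1 then 1 else if x = 0 then 0 else x + 1 := by
  simp only [ps, Perm.mul_apply, pt_apply, swap_apply_def]; split_ifs <;> omega
theorem pz_apply (x : ℤ) :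
    pz x = if x = -1 then 2 else if x = 0 then 0 else if x = 1 then 1 else x + 1 := by
  simp only [pz, Perm.mul_apply, ps_apply, swap_apply_def]; split_ifs <;> omega
theorem pa_apply (x : ℤ) : pa x = if x = 2 then 3 else if x = 3 then 2 else x := by
  simp only [pa, swap_apply_def]
theorem pt_inv (x : ℤ) : pt⁻¹ x = x - 1 := by
  rw [Perm.inv_eq_iff_eq, pt_apply]; omega
theorem ps_inv (x : ℤ) : ps⁻¹ x = if x = 1 then -1 else if x = 0 then 0 else x - 1 := by
  rw [Perm.inv_eq_iff_eq, ps_apply]; split_ifs <;> first | omega | simp_all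
theorem pz_inv (x : ℤ) :
    pz⁻¹ x = if x = 2 then -1 else if x = 0 then 0 else if x = 1 then 1 else x - 1 := by
  rw [Perm.inv_eq_iff_eq, pz_apply]; split_ifs <;> first | omega | simp_all

theorem ev_pt : Ev pt 1 := ⟨0, fun _ _ => rfl⟩
theorem ev_ps : Ev ps 1 := ⟨1, fun x hx => by
  rw [ps_apply]; rcases abs_cases x with h | h <;> split_ifs <;> omega⟩
theorem ev_pz : Ev pz 1 := ⟨1, fun x hx => by
  rw [pz_apply]; rcases abs_cases x with h | h <;> split_ifs <;> omega⟩
theorem ev_pa : Ev pa 0 := ⟨3, fun x hx => by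
  rw [pa_apply]; rcases abs_cases x with h | h <;> split_ifs <;> omega⟩

def gen : Fin 7 → Perm ℤ := ![pt, pt⁻¹, ps, ps⁻¹, pz, pz⁻¹, pa]

theorem gen_mem (i : Fin 7) : gen i ∈ HH := by
  fin_cases i
  · exact ⟨_, ev_pt⟩
  · exact ⟨_, ev_pt.inv⟩
  · exact ⟨_, ev_ps⟩
  · exact ⟨_, ev_ps.inv⟩
  · exact ⟨_, ev_pz⟩
  · exact ⟨_, ev_pz.inv⟩
  · exact ⟨_, ev_pa⟩

def cl (g : Perm ℤ) : Fin 7 :=
  if g 0 = 1 then 0 else if g 0 = -1 then 1 else if g 1 = 2 then 2 else if g 1 = -1 then 3 else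
  if g (-1) = 2 then 4 else if g 2 = -1 then 5 else 6

theorem cl_gen (i : Fin 7) : cl (gen i) = i := by
  fin_cases i <;>
    simp [cl, gen, pt_apply, ps_apply, pz_apply, pa_apply, pt_inv, ps_inv, pz_inv,
      -Perm.coe_inv]

def e1 (j : ℤ) : ℤ := if 0 ≤ j then j + 1 else j
def e2 (j : ℤ) : ℤ := if 0 ≤ j then j + 2 else j

theorem ps_e1 (j : ℤ) : ps (e1 j) = e1 (j + 1) := by
  simp only [ps_apply, e1]; split_ifs <;> omega
theorem ps_inv_e1 (j : ℤ) : ps⁻¹ (e1 j) = e1 (j - 1) := by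
  rw [Perm.inv_eq_iff_eq, ps_e1]; simp
theorem pz_e2 (j : ℤ) : pz (e2 j) = e2 (j + 1) := by
  simp only [pz_apply, e2]; split_ifs <;> omega
theorem pz_inv_e2 (j : ℤ) : pz⁻¹ (e2 j) = e2 (j - 1) := by
  rw [Perm.inv_eq_iff_eq, pz_e2]; simp

theorem pt_zpow (m x : ℤ) : (pt ^ m) x = x + m := by
  induction m using Int.induction_on generalizing x with
  | zero => simp
  | succ i ih => rw [zpow_add_one, Perm.mul_apply, ih, pt_apply]; ring
  | pred i ih => rw [zpow_sub_one, Perm.mul_apply, ih, pt_inv]; ring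

theorem ps_zpow (m : ℤ) : (ps ^ m) 0 = 0 ∧ ∀ j, (ps ^ m) (e1 j) = e1 (j + m) := by
  induction m using Int.induction_on with
  | zero => simp
  | succ i ih =>
    refine ⟨by rw [zpow_add_one, Perm.mul_apply, ps_apply]; simpa using ih.1, fun j => ?_⟩
    rw [zpow_add_one, Perm.mul_apply, ps_e1, ih.2]; congr 1; ring
  | pred i ih =>
    refine ⟨by rw [zpow_sub_one, Perm.mul_apply, ps_inv]; simpa using ih.1, fun j => ?_⟩
    rw [zpow_sub_one, Perm.mul_apply, ps_inv_e1, ih.2]; congr 1; ring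

theorem ev_pz_zpow (m : ℤ) : Ev (pz ^ m) m ∧ (pz ^ m) 0 = 0 ∧ (pz ^ m) 1 = 1 := by
  induction m using Int.induction_on with
  | zero => exact ⟨Ev.one, rfl, rfl⟩
  | succ i ih =>
    rw [zpow_add_one]
    refine ⟨ih.1.mul ev_pz, ?_, ?_⟩
    · rw [Perm.mul_apply, pz_apply]; simpa using ih.2.1
    · rw [Perm.mul_apply, pz_apply]; simpa using ih.2.2
  | pred i ih =>
    rw [zpow_sub_one]
    refine ⟨ih.1.mul ev_pz.inv, ?_, ?_⟩
    · rw [Perm.mul_apply, pz_inv]; simpa using ih.2.1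
    · rw [Perm.mul_apply, pz_inv]; simpa using ih.2.2

def CC : Subgroup (Perm ℤ) := Subgroup.closure {pz, pa}

theorem pz_mem : pz ∈ CC := Subgroup.subset_closure (by simp)
theorem pa_mem : pa ∈ CC := Subgroup.subset_closure (by simp)

theorem swap_mem (j : ℤ) : swap (e2 j) (e2 (j + 1)) ∈ CC := by
  induction j using Int.induction_on with
  | zero => exact pa_mem
  | succ i ih =>
    have := swap_apply_apply pz (e2 i) (e2 (i + 1))
    rw [pz_e2, pz_e2] at this
    rw [this]
    exact CC.mul_mem (CC.mul_mem pz_mem ih) (CC.inv_mem pz_mem)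
  | pred i ih =>
    have := swap_apply_apply pz⁻¹ (e2 (-i)) (e2 (-i + 1))
    rw [pz_inv_e2, pz_inv_e2] at this
    have e : -(i : ℤ) - 1 + 1 = -i + 1 - 1 := by ring
    rw [e, this]
    exact CC.mul_mem (CC.mul_mem (CC.inv_mem pz_mem) ih) (CC.inv_mem (CC.inv_mem pz_mem))

theorem fin_mem (f : Perm ℤ) (hf : Ev f 0) (h0 : f 0 = 0) (h1 : f 1 = 1) : f ∈ CC := by
  let S : Set (Perm ℤ) := Set.range (fun j => swap (e2 j) (e2 (j + 1)))
  have hS : ∀ g ∈ S, g.IsSwap := by
    rintro _ ⟨j, rfl⟩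
    exact ⟨_, _, by simp only [e2]; split_ifs <;> omega, rfl⟩
  have hle : Subgroup.closure S ≤ CC := by
    rw [Subgroup.closure_le]
    rintro _ ⟨j, rfl⟩
    exact swap_mem j
  apply hle
  rw [mem_closure_isSwap hS]
  constructor
  · obtain ⟨N, hN⟩ := hf
    refine (Set.finite_Icc (-N) N).subset ?_
    intro x hx
    by_contra h
    rw [Set.mem_Icc, ← abs_le] at h
    exact hx (by simpa using hN x (by omega))
  · have horb : ∀ j, e2 j ∈ MulAction.orbit (Subgroup.closure S) (e2 0) := by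
      intro j
      induction j using Int.induction_on with
      | zero => exact MulAction.mem_orbit_self _
      | succ i ih =>
        obtain ⟨g, hg⟩ := ih
        refine ⟨(⟨_, Subgroup.subset_closure ⟨i, rfl⟩⟩ : Subgroup.closure S) * g, ?_⟩
        simp only [mul_smul] at hg ⊢
        rw [hg]
        exact swap_apply_left _ _
      | pred i ih =>
        obtain ⟨g, hg⟩ := ih
        refine ⟨(⟨_, Subgroup.subset_closure ⟨-i - 1, rfl⟩⟩ : Subgroup.closure S) * g, ?_⟩
        simp only [mul_smul] at hg ⊢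
        rw [hg]
        have e : -(i : ℤ) - 1 + 1 = -i := by ring
        change swap (e2 (-i - 1)) (e2 (-i - 1 + 1)) (e2 (-i)) = _
        rw [e]
        exact swap_apply_right _ _
    have hsur : ∀ x : ℤ, x ≠ 0 → x ≠ 1 → ∃ j, x = e2 j := by
      intro x a b
      by_cases hx : 0 ≤ x
      · exact ⟨x - 2, by simp only [e2]; split_ifs <;> omega⟩
      · exact ⟨x, by simp only [e2]; split_ifs; omega⟩
    intro x
    by_cases a0 : x = 0
    · rw [a0, h0]; exact MulAction.mem_orbit_self _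
    by_cases a1 : x = 1
    · rw [a1, h1]; exact MulAction.mem_orbit_self _
    obtain ⟨j, hj⟩ := hsur x a0 a1
    obtain ⟨j', hj'⟩ := hsur (f x) (fun h => a0 (f.injective (h.trans h0.symm)))
      (fun h => a1 (f.injective (h.trans h1.symm)))
    rw [hj', hj, MulAction.orbit_eq_iff.mpr (horb j)]
    exact horb j'

theorem CC_word (g : Perm ℤ) (hg : g ∈ CC) :
    ∃ w : List (Fin 7), (∀ i ∈ w, 4 ≤ i) ∧ val gen w = g := by
  have : g ∈ (Subgroup.closure {pz, pa}).toSubmonoid := hg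
  rw [Subgroup.closure_toSubmonoid] at this
  clear hg
  induction this using Submonoid.closure_induction with
  | mem x hx =>
    simp only [Set.mem_union, Set.mem_insert_iff, Set.mem_singleton_iff, Set.mem_inv,
      inv_eq_iff_eq_inv] at hx
    rcases hx with (rfl | rfl) | (rfl | rfl)
    · exact ⟨[4], by simp, by simp [gen]⟩
    · exact ⟨[6], by simp, by simp [gen]⟩
    · exact ⟨[5], by simp, by simp [gen]⟩
    · exact ⟨[6], by simp, by simp [gen, pa]⟩
  | one => exact ⟨[], by simp, rfl⟩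
  | mul x y _ _ hx hy =>
    obtain ⟨u, a1, rfl⟩ := hx
    obtain ⟨w, a2, rfl⟩ := hy
    refine ⟨u ++ w, ?_, by simp⟩
    intro i hi
    rcases List.mem_append.mp hi with h | h
    · exact a1 i h
    · exact a2 i h

theorem K_word (g : Perm ℤ) (hg : g ∈ HH) (h0 : g 0 = 0) (h1 : g 1 = 1) :
    ∃ w : List (Fin 7), (∀ i ∈ w, 4 ≤ i) ∧ val gen w = g := by
  obtain ⟨k, hk⟩ := hg
  apply CC_word
  obtain ⟨a1, a2, a3⟩ := ev_pz_zpow (-k)
  have h2 := fin_mem (pz ^ (-k) * g) (by simpa using a1.mul hk)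
    (by rw [Perm.mul_apply, h0, a2]) (by rw [Perm.mul_apply, h1, a3])
  have : g = pz ^ k * (pz ^ (-k) * g) := by simp
  rw [this]
  exact CC.mul_mem (CC.zpow_mem pz_mem k) h2

inductive St | q0 | qp | qm | sp | sm | kk | ff | dead
deriving DecidableEq

instance : Fintype St where
  elems := {.q0, .qp, .qm, .sp, .sm, .kk, .ff, .dead}
  complete x := by cases x <;> decide

open St

def dl : St → Fin 7 → St
  | q0 => ![qp, qm, sp, sm, dead, dead, dead]
  | qp => ![qp, dead, sp, sm, dead, dead, dead]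
  | qm => ![dead, qm, sp, sm, dead, dead, dead]
  | sp => ![ff, ff, sp, dead, kk, kk, kk]
  | sm => ![ff, ff, dead, sm, kk, kk, kk]
  | kk => ![ff, ff, dead, dead, kk, kk, kk]
  | ff => ![ff, ff, dead, dead, dead, dead, dead]
  | dead => fun _ => dead

def M0 : DFA (Fin 7) St where
  step := dl
  start := q0
  accept := {s | s ≠ q0 ∧ s ≠ dead}

def Inv : St → Perm ℤ → Prop
  | q0, g => ∀ x, g x = x
  | qp, g => ∃ m, 0 < m ∧ ∀ x, g x = x + m
  | qm, g => ∃ m, m < 0 ∧ ∀ x, g x = x + m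
  | sp, g => ∃ m k, 0 < k ∧ g 0 = m ∧ ∀ j, g (e1 j) = e1 (j + k) + m
  | sm, g => ∃ m k, k < 0 ∧ g 0 = m ∧ ∀ j, g (e1 j) = e1 (j + k) + m
  | kk, g => g 1 ≠ g 0 + 1
  | ff, g => ∃ i, g (i + 1) ≠ g i + 1
  | dead, _ => True

theorem to_sp (g : Perm ℤ) (m : ℤ) (h : ∀ x, g x = x + m) : Inv sp (g * ps) ∧ Inv sm (g * ps⁻¹) := by
  refine ⟨⟨m, 1, by omega, ?_, fun j => ?_⟩, ⟨m, -1, by omega, ?_, fun j => ?_⟩⟩
  · rw [Perm.mul_apply, h, ps_apply]; simp
  · rw [Perm.mul_apply, h, ps_e1]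
  · rw [Perm.mul_apply, h, ps_inv]; simp
  · rw [Perm.mul_apply, h, ps_inv_e1]; rfl

theorem ff_step (g : Perm ℤ) (h : Inv ff g) : Inv ff (g * pt) ∧ Inv ff (g * pt⁻¹) := by
  obtain ⟨i, hi⟩ := h
  refine ⟨⟨i - 1, ?_⟩, ⟨i + 1, ?_⟩⟩
  · simpa [Perm.mul_apply, pt_apply] using hi
  · simp only [Perm.mul_apply, pt_inv]; simpa using hi

theorem kk_step (g : Perm ℤ) (h : Inv kk g) :
    Inv ff (g * pt) ∧ Inv ff (g * pt⁻¹) ∧ Inv kk (g * pz) ∧ Inv kk (g * pz⁻¹) ∧ Inv kk (g * pa) := by
  have := ff_step g ⟨0, by simpa [Inv] using h⟩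
  refine ⟨this.1, this.2, ?_, ?_, ?_⟩
  · simpa [Inv, Perm.mul_apply, pz_apply] using h
  · simp only [Inv, Perm.mul_apply, pz_inv]; simpa [Inv] using h
  · simpa [Inv, Perm.mul_apply, pa_apply] using h

theorem s_kk (g : Perm ℤ) (h : Inv sp g ∨ Inv sm g) : Inv kk g := by
  rcases h with ⟨m, k, a, b, c⟩ | ⟨m, k, a, b, c⟩
  all_goals
    have := c 0
    simp only [e1] at this
    simp only [Inv]
    split_ifs at this <;> simp at this <;> omega

theorem inv_step (s : St) (g : Perm ℤ) (h : Inv s g) (i : Fin 7) : Inv (dl s i) (g * gen i) := by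
  cases s with
  | q0 =>
    have := to_sp g 0 (by simpa [Inv] using h)
    fin_cases i
    · exact ⟨1, by omega, fun x => by rw [Perm.mul_apply, h]; rfl⟩
    · exact ⟨-1, by omega, fun x => by rw [Perm.mul_apply, h]; exact pt_inv x⟩
    · exact this.1
    · exact this.2
    all_goals trivial
  | qp =>
    obtain ⟨m, hm, h⟩ := h
    have := to_sp g m h
    fin_cases i
    · exact ⟨m + 1, by omega, fun x => by
        rw [Perm.mul_apply, h]; change x + 1 + m = _; ring⟩
    · trivial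
    · exact this.1
    · exact this.2
    all_goals trivial
  | qm =>
    obtain ⟨m, hm, h⟩ := h
    have := to_sp g m h
    fin_cases i
    · trivial
    · exact ⟨m - 1, by omega, fun x => by
        rw [Perm.mul_apply, h]; change pt⁻¹ x + m = _; rw [pt_inv]; ring⟩
    · exact this.1
    · exact this.2
    all_goals trivial
  | sp =>
    obtain ⟨a1, a2, a3, a4, a5⟩ := kk_step g (s_kk g (Or.inl h))
    obtain ⟨m, k, a, b, c⟩ := h
    fin_cases i
    · exact a1
    · exact a2
    · refine ⟨m, k + 1, by omega, ?_, fun j => ?_⟩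
      · change g (ps 0) = m
        rw [ps_apply]; simpa using b
      · change g (ps (e1 j)) = _
        rw [ps_e1, c]; congr 2; ring
    · trivial
    · exact a3
    · exact a4
    · exact a5
  | sm =>
    obtain ⟨a1, a2, a3, a4, a5⟩ := kk_step g (s_kk g (Or.inr h))
    obtain ⟨m, k, a, b, c⟩ := h
    fin_cases i
    · exact a1
    · exact a2
    · trivial
    · refine ⟨m, k - 1, by omega, ?_, fun j => ?_⟩
      · change g (ps⁻¹ 0) = m
        rw [ps_inv]; simpa using b
      · change g (ps⁻¹ (e1 j)) = _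
        rw [ps_inv_e1, c]; congr 2; ring
    · exact a3
    · exact a4
    · exact a5
  | kk =>
    obtain ⟨a1, a2, a3, a4, a5⟩ := kk_step g h
    fin_cases i
    · exact a1
    · exact a2
    · trivial
    · trivial
    · exact a3
    · exact a4
    · exact a5
  | ff =>
    obtain ⟨a1, a2⟩ := ff_step g h
    fin_cases i
    · exact a1
    · exact a2
    all_goals trivial
  | dead => trivial

theorem inv_eval (w : List (Fin 7)) : Inv (M0.eval w) (val gen w) := by
  induction w using List.reverseRecOn with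
  | nil => intro x; rfl
  | append_singleton w i ih =>
    rw [DFA.eval_append_singleton, val_append, val_cons, val_nil, mul_one]
    exact inv_step _ _ ih i

theorem acc_ne_one (w : List (Fin 7)) (h : w ∈ M0.accepts) : val gen w ≠ 1 := by
  intro h1
  have h2 := inv_eval w
  rw [DFA.mem_accepts] at h
  rw [h1] at h2
  have hk : ¬ Inv kk 1 := by simp [Inv]
  revert h h2
  cases M0.eval w with
  | q0 => intro h; exact (h.1 rfl).elim
  | qp => rintro _ ⟨m, hm, h⟩; have := h 0; simp at this; omega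
  | qm => rintro _ ⟨m, hm, h⟩; have := h 0; simp at this; omega
  | sp => intro _ h; exact hk (s_kk _ (Or.inl h))
  | sm => intro _ h; exact hk (s_kk _ (Or.inr h))
  | kk => intro _ h; exact hk h
  | ff => rintro _ ⟨i, hi⟩; simp at hi
  | dead => intro h; exact (h.2 rfl).elim

theorem stay (T : Set St) (I : Fin 7 → Prop) (h : ∀ s ∈ T, ∀ i, I i → dl s i ∈ T)
    (w : List (Fin 7)) (hw : ∀ i ∈ w, I i) : ∀ s ∈ T, M0.evalFrom s w ∈ T := by
  induction w with
  | nil => intro s hs; exact hs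
  | cons i w ih =>
    intro s hs
    exact ih (fun j hj => hw j (List.mem_cons_of_mem _ hj)) _ (h s hs i (hw i List.mem_cons_self))

theorem zword (g : Perm ℤ) (i j : Fin 7) (hi : gen i = g) (hj : gen j = g⁻¹) (m : ℤ) :
    ∃ n : ℕ, ∃ l, (l = i ∨ l = j) ∧ (m ≠ 0 → 0 < n) ∧ val gen (List.replicate n l) = g ^ m := by
  rcases le_total 0 m with h | h
  · refine ⟨m.toNat, i, Or.inl rfl, by omega, ?_⟩
    rw [val_replicate, hi, ← zpow_natCast, Int.toNat_of_nonneg h]
  · refine ⟨(-m).toNat, j, Or.inr rfl, by omega, ?_⟩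
    rw [val_replicate, hj, ← zpow_natCast, Int.toNat_of_nonneg (by omega)]; simp

theorem run_t (n : ℕ) (l : Fin 7) (hl : l = 0 ∨ l = 1) :
    M0.eval (List.replicate n l) ∈ ({q0, qp, qm} : Set St) ∧
      (0 < n → M0.eval (List.replicate n l) ∈ ({qp, qm} : Set St)) := by
  cases n with
  | zero => exact ⟨by simp [M0], by omega⟩
  | succ n =>
    have : M0.eval (List.replicate (n + 1) l) ∈ ({qp, qm} : Set St) := by
      rcases hl with rfl | rfl
      · have := stay {qp} (· = 0) (by rintro _ rfl _ rfl; rfl) (List.replicate n 0)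
          (fun i hi => List.eq_of_mem_replicate hi) qp rfl
        exact Or.inl this
      · have := stay {qm} (· = 1) (by rintro _ rfl _ rfl; rfl) (List.replicate n 1)
          (fun i hi => List.eq_of_mem_replicate hi) qm rfl
        exact Or.inr this
    exact ⟨Or.inr this, fun _ => this⟩

theorem run_s (n : ℕ) (hn : 0 < n) (l : Fin 7) (hl : l = 2 ∨ l = 3) (s : St)
    (hs : s ∈ ({q0, qp, qm} : Set St)) :
    M0.evalFrom s (List.replicate n l) ∈ ({sp, sm, kk} : Set St) := by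
  obtain ⟨n, rfl⟩ : ∃ k, n = k + 1 := ⟨n - 1, by omega⟩
  rcases hl with rfl | rfl
  · have := stay {sp} (· = 2) (by rintro _ rfl _ rfl; rfl) (List.replicate n 2)
      (fun i hi => List.eq_of_mem_replicate hi) sp rfl
    rcases hs with rfl | rfl | rfl <;> exact Or.inl this
  · have := stay {sm} (· = 3) (by rintro _ rfl _ rfl; rfl) (List.replicate n 3)
      (fun i hi => List.eq_of_mem_replicate hi) sm rfl
    rcases hs with rfl | rfl | rfl <;> exact Or.inr (Or.inl this)

theorem exists_acc (g : Perm ℤ) (hg : g ∈ HH) (h1 : g ≠ 1) :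
    ∃ w ∈ M0.accepts, val gen w = g := by
  by_cases hc : ∀ i, g (i + 1) = g i + 1
  · have h2 : ∀ x, g x = x + g 0 := by
      intro x
      induction x using Int.induction_on with
      | zero => simp
      | succ i ih => rw [hc, ih]; ring
      | pred i ih =>
        have := hc (-i - 1)
        rw [sub_add_cancel, ih] at this; omega
    have h3 : g = pt ^ (g 0) := by ext x; rw [pt_zpow, ← h2]
    have h4 : g 0 ≠ 0 := by intro h; rw [h] at h3; exact h1 (by simpa using h3)
    obtain ⟨n, l, a1, a2, a3⟩ := zword pt 0 1 rfl rfl (g 0)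
    refine ⟨_, ?_, a3.trans h3.symm⟩
    rw [DFA.mem_accepts]
    rcases (run_t n l a1).2 (a2 h4) with h | h <;> rw [h] <;> simp [M0]
  · push Not at hc
    obtain ⟨i, hi⟩ := hc
    have hi' : g (i + 1) ≠ g i := fun h => by have := g.injective h; omega
    obtain ⟨k, hk0, hk⟩ : ∃ k, k ≠ 0 ∧ e1 k = g (i + 1) - g i := by
      by_cases hx : 0 ≤ g (i + 1) - g i
      · exact ⟨g (i + 1) - g i - 1, by omega, by simp only [e1]; split_ifs <;> omega⟩
      · exact ⟨g (i + 1) - g i, by omega, by simp only [e1]; split_ifs; omega⟩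
    have hpt : pt ∈ HH := ⟨_, ev_pt⟩
    have hps : ps ∈ HH := ⟨_, ev_ps⟩
    obtain ⟨w3, b1, b2⟩ := K_word (ps ^ (-k) * pt ^ (-(g i)) * g * pt ^ i)
      (HH.mul_mem (HH.mul_mem (HH.mul_mem (HH.zpow_mem hps _) (HH.zpow_mem hpt _)) hg)
        (HH.zpow_mem hpt _))
      (by simp only [Perm.mul_apply, pt_zpow, zero_add, add_neg_cancel]; exact (ps_zpow _).1)
      (by
        simp only [Perm.mul_apply, pt_zpow]
        rw [add_comm 1 i, ← sub_eq_add_neg, ← hk, (ps_zpow _).2]; simp [e1])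
    obtain ⟨n1, l1, a1, _, a3⟩ := zword pt 0 1 rfl rfl (g i)
    obtain ⟨n2, l2, c1, c2, c3⟩ := zword ps 2 3 rfl rfl k
    obtain ⟨n4, l4, d1, _, d3⟩ := zword pt 0 1 rfl rfl (-i)
    refine ⟨List.replicate n1 l1 ++ List.replicate n2 l2 ++ w3 ++ List.replicate n4 l4, ?_, ?_⟩
    · rw [DFA.mem_accepts]
      simp only [DFA.eval, DFA.evalFrom_of_append]
      have s1 := (run_t n1 l1 a1).1
      have s2 := run_s n2 (c2 hk0) l2 c1 _ s1
      have s3 := stay {sp, sm, kk} (4 ≤ ·) (by
        rintro _ (rfl | rfl | rfl) j hj <;> fin_cases j <;> simp [dl] at hj ⊢) w3 b1 _ s2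
      have s4 := stay {sp, sm, kk, ff} (fun j => j = 0 ∨ j = 1) (by
        rintro _ (rfl | rfl | rfl | rfl) j (rfl | rfl) <;> simp [dl]) (List.replicate n4 l4)
        (fun j hj => by rw [List.eq_of_mem_replicate hj]; exact d1) _
        ((show ({sp, sm, kk} : Set St) ⊆ {sp, sm, kk, ff} by
          rintro _ (rfl | rfl | rfl) <;> simp) s3)
      simp only [DFA.eval] at s4
      rcases s4 with h | h | h | h <;> rw [h] <;> simp [M0]
    · rw [val_append, val_append, val_append, a3, c3, b2, d3]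
      group

end Pool.Agent.H.MP_cfc732_al
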