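import Mathlib

set_option autoImplicit false

namespace Pool.Agent.H.MP_cfc732_al

open Equiv

def Ev (g : Perm ℤ) (k : ℤ) : Prop := ∃ N : ℤ, ∀ x, N < |x| → g x = x + k

theorem Ev.one : Ev 1 0 := ⟨0, by simp⟩

theorem Ev.mul {a b : Perm ℤ} {k l : ℤ} (ha : Ev a k) (hb : Ev b l) : Ev (a * b) (k + l) := by
  obtain ⟨N, hN⟩ := ha
  obtain ⟨P, hP⟩ := hb
  refine ⟨max P (N + |l|), fun x hx => ?_⟩
  rw [max_lt_iff] at hx
  rw [Perm.mul_apply, hP x hx.1, hN]
  · ring
  · have := abs_sub_abs_le_abs_add x l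
    omega

theorem Ev.inv {a : Perm ℤ} {k : ℤ} (ha : Ev a k) : Ev a⁻¹ (-k) := by
  obtain ⟨N, hN⟩ := ha
  refine ⟨N + |k|, fun x hx => ?_⟩
  rw [Perm.inv_eq_iff_eq, hN]
  · ring
  · have := abs_sub_abs_le_abs_add x (-k)
    rw [abs_neg] at this
    omega

theorem Ev.unique {a : Perm ℤ} {k l : ℤ} (ha : Ev a k) (hb : Ev a l) : k = l := by
  obtain ⟨N, hN⟩ := ha
  obtain ⟨P, hP⟩ := hb
  have h1 := hN (|N| + |P| + 1) (by
    have := le_abs_self N; have := abs_nonneg P; have := le_abs_self (|N| + |P| + 1); omega)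
  have h2 := hP (|N| + |P| + 1) (by
    have := le_abs_self P; have := abs_nonneg N; have := le_abs_self (|N| + |P| + 1); omega)
  omega

def HH : Subgroup (Perm ℤ) where
  carrier := {g | ∃ k, Ev g k}
  one_mem' := ⟨0, Ev.one⟩
  mul_mem' := fun ⟨_, h1⟩ ⟨_, h2⟩ => ⟨_, h1.mul h2⟩
  inv_mem' := fun ⟨_, h⟩ => ⟨_, h.inv⟩

theorem fin_order {a : Perm ℤ} (ha : Ev a 0) : ∃ m : ℕ, 0 < m ∧ a ^ m = 1 := by
  obtain ⟨N, hN⟩ := ha
  have hout : ∀ (k : ℕ) x, N < |x| → (a ^ k) x = x := by
    intro k x hx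
    induction k with
    | zero => simp
    | succ k ih => rw [pow_succ', Perm.mul_apply, ih, hN x hx, add_zero]
  have hin : ∀ (k : ℕ) x, x ∈ Finset.Icc (-N) N → (a ^ k) x ∈ Finset.Icc (-N) N := by
    intro k x hx
    by_contra h
    have h1 : N < |(a ^ k) x| := by
      rw [Finset.mem_Icc, ← abs_le] at h; omega
    have h2 := hout k _ h1
    have h3 : (a ^ k) x = x := (a ^ k).injective h2
    rw [h3] at h; exact h hx
  obtain ⟨i, j, hij, he⟩ := Finite.exists_ne_map_eq_of_infinite
    (fun k : ℕ => fun x : Finset.Icc (-N) N => (⟨(a ^ k) x, hin k x x.2⟩ : Finset.Icc (-N) N))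
  have he' : a ^ i = a ^ j := by
    ext x
    by_cases hx : x ∈ Finset.Icc (-N) N
    · have := congrArg Subtype.val (congrFun he ⟨x, hx⟩)
      exact this
    · have h1 : N < |x| := by rw [Finset.mem_Icc, ← abs_le] at hx; omega
      rw [hout i x h1, hout j x h1]
  have key : ∀ i j : ℕ, i < j → a ^ i = a ^ j → ∃ m : ℕ, 0 < m ∧ a ^ m = 1 := by
    intro i j hij he
    refine ⟨j - i, by omega, ?_⟩
    have : a ^ i * a ^ (j - i) = a ^ i * 1 := by
      rw [← pow_add, mul_one, he]; congr 1; omega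
    exact mul_left_cancel this
  rcases lt_or_gt_of_ne hij with h | h
  · exact key i j h he'
  · exact key j i h he'.symm

section
variable {A : Type} (ev : A → Perm ℤ) (k : A → ℤ)

def val (w : List A) : Perm ℤ := (w.map ev).prod
def chi (w : List A) : ℤ := (w.map k).sum

@[simp] theorem val_nil : val ev [] = 1 := rfl
@[simp] theorem val_cons (x : A) (w : List A) : val ev (x :: w) = ev x * val ev w := by simp [val]
@[simp] theorem val_append (u w : List A) : val ev (u ++ w) = val ev u * val ev w := by simp [val]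
@[simp] theorem val_replicate (i : ℕ) (x : A) : val ev (List.replicate i x) = ev x ^ i := by
  simp [val]
@[simp] theorem chi_nil : chi k [] = 0 := rfl
@[simp] theorem chi_cons (x : A) (w : List A) : chi k (x :: w) = k x + chi k w := by simp [chi]
@[simp] theorem chi_append (u w : List A) : chi k (u ++ w) = chi k u + chi k w := by simp [chi]

theorem ev_val (h : ∀ x, Ev (ev x) (k x)) (w : List A) : Ev (val ev w) (chi k w) := by
  induction w with
  | nil => exact Ev.one
  | cons x w ih => rw [val_cons, chi_cons]; exact (h x).mul ih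

theorem cross (r D : ℤ) (h : ∀ x y, (r < |y| → ev x y = y + k x) ∧ ev x y - y - k x ≤ D)
    (y : ℤ) (hy : y < 0) (w : List A) (hw : 0 ≤ val ev w y - chi k w) :
    ∃ p s, w = p ++ s ∧ |val ev s y| ≤ r ∧ -D ≤ val ev s y - chi k s ∧ val ev s y - chi k s < 0 := by
  induction w with
  | nil => simp at hw; omega
  | cons x w ih =>
    by_cases h1 : 0 ≤ val ev w y - chi k w
    · obtain ⟨p, s, h2, h3⟩ := ih h1
      exact ⟨x :: p, s, by rw [h2]; rfl, h3⟩
    · rw [val_cons, chi_cons, Perm.mul_apply] at hw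
      obtain ⟨a1, a2⟩ := h x (val ev w y)
      refine ⟨[x], w, rfl, ?_, by omega, by omega⟩
      by_contra h3
      have := a1 (by omega)
      omega

theorem loop {σ : Type} (M : DFA A σ) (h : ∀ x, Ev (ev x) (k x))
    (hinj : Set.InjOn (val ev) M.accepts) (p u s : List A) (hw : p ++ (u ++ s) ∈ M.accepts)
    (hq : M.eval (p ++ u) = M.eval p) (hc : chi k u = 0) : u = [] := by
  have h0 := ev_val ev k h u
  rw [hc] at h0
  obtain ⟨m, hm, hp⟩ := fin_order h0
  have h1 : ∀ n : ℕ, M.evalFrom (M.eval p) (List.replicate n u).flatten = M.eval p ∧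
      val ev (List.replicate n u).flatten = val ev u ^ n := by
    intro n
    induction n with
    | zero => simp
    | succ n ih =>
      rw [List.replicate_succ, List.flatten_cons, DFA.evalFrom_of_append, val_append, ih.2,
        pow_succ']
      refine ⟨?_, rfl⟩
      have : M.evalFrom (M.eval p) u = M.eval p := by
        have := hq
        simp only [DFA.eval, DFA.evalFrom_of_append] at this ⊢
        exact this
      rw [this, ih.1]
  have h2 : p ++ ((List.replicate m u).flatten ++ (u ++ s)) ∈ M.accepts := by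
    rw [DFA.mem_accepts] at hw ⊢
    have := (h1 m).1
    simp only [DFA.eval, DFA.evalFrom_of_append] at hw this ⊢
    rw [this]; exact hw
  have h3 := hinj h2 hw (by simp only [val_append, (h1 m).2, hp, one_mul])
  have h4 := congrArg List.length h3
  simp only [List.length_append, List.length_flatten, List.map_replicate, List.sum_replicate,
    smul_eq_mul] at h4
  have : m * u.length = 0 := by omega
  rcases Nat.mul_eq_zero.mp this with h5 | h5
  · omega
  · exact List.length_eq_zero_iff.mp h5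

end

def blk (n : ℤ) : Perm ℤ where
  toFun x := if -n ≤ x ∧ x < n then -1 - x else x
  invFun x := if -n ≤ x ∧ x < n then -1 - x else x
  left_inv x := by simp only []; split_ifs <;> omega
  right_inv x := by simp only []; split_ifs <;> omega

theorem blk_apply (n x : ℤ) : blk n x = if -n ≤ x ∧ x < n then -1 - x else x := rfl

theorem ev_blk (n : ℤ) : Ev (blk n) 0 := by
  refine ⟨|n|, fun x hx => ?_⟩
  rw [blk_apply, if_neg, add_zero]
  have := le_abs_self n
  rcases abs_cases x with h | h <;> omega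

theorem no_rcs {A : Type} [Fintype A] (ev : A → Perm ℤ) (hev : ∀ x, ev x ∈ HH) {σ : Type}
    [Fintype σ] (M : DFA A σ) (hinj : Set.InjOn (val ev) M.accepts)
    (hs : ∀ g ∈ HH, ∃ w ∈ M.accepts, val ev w = g) : False := by
  classical
  choose k hk using hev
  have hk' := hk
  choose N hN using hk'
  obtain ⟨r, hr⟩ := (Set.finite_range N).bddAbove
  obtain ⟨D0, hD0⟩ := (Set.finite_range
    (fun z : A × Finset.Icc (-r) r => ev z.1 z.2 - z.2 - k z.1)).bddAbove
  have h : ∀ x y, (r < |y| → ev x y = y + k x) ∧ ev x y - y - k x ≤ max D0 0 := by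
    intro x y
    have a1 : r < |y| → ev x y = y + k x := fun hy =>
      hN x y (lt_of_le_of_lt (hr ⟨x, rfl⟩) hy)
    refine ⟨a1, ?_⟩
    by_cases hy : r < |y|
    · rw [a1 hy]; simp
    · have : y ∈ Finset.Icc (-r) r := by rw [Finset.mem_Icc, ← abs_le]; omega
      exact le_max_of_le_left (hD0 ⟨(x, ⟨y, this⟩), rfl⟩)
  set D := max D0 0
  let T : Finset (σ × ℤ × ℤ) := Finset.univ ×ˢ (Finset.Icc (-r) (r + D) ×ˢ Finset.Icc (-r) r)
  let n : ℕ := T.card + 1
  obtain ⟨w, hw, hv⟩ := hs (blk n) ⟨0, ev_blk n⟩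
  have hc : chi k w = 0 := (ev_val ev k hk w).unique (hv ▸ ev_blk n)
  have hcr : ∀ y : ℤ, ∃ p s, y ∈ Finset.Ico (-(n : ℤ)) 0 → (w = p ++ s ∧ |val ev s y| ≤ r ∧
      -D ≤ val ev s y - chi k s ∧ val ev s y - chi k s < 0) := by
    intro y
    by_cases hy : y ∈ Finset.Ico (-(n : ℤ)) 0
    · rw [Finset.mem_Ico] at hy
      obtain ⟨p, s, h1⟩ := cross ev k r D h y hy.2 w (by
        rw [hv, hc, blk_apply, if_pos (by omega)]; omega)
      exact ⟨p, s, fun _ => h1⟩
    · exact ⟨[], [], fun h => (hy h).elim⟩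
  choose p s hps using hcr
  obtain ⟨y, hy, y', hy', hne, he⟩ := Finset.exists_ne_map_eq_of_card_lt_of_maps_to
    (s := Finset.Ico (-(n : ℤ)) 0) (t := T) (by simp [n])
    (f := fun y => (M.eval (p y), chi k (s y), val ev (s y) y)) (by
      intro y hy
      obtain ⟨_, a1, a2, a3⟩ := hps y hy
      rw [abs_le] at a1
      simp only [T, Finset.coe_product, Set.mem_prod, Finset.coe_univ, Set.mem_univ, true_and,
        Finset.coe_Icc, Set.mem_Icc]
      omega)
  simp only [Prod.mk.injEq] at he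
  obtain ⟨e1, e2, e3⟩ := he
  have b1 := (hps y hy).1
  have b2 := (hps y' hy').1
  rcases List.append_eq_append_iff.mp (b1.symm.trans b2) with ⟨u, c1, c2⟩ | ⟨u, c1, c2⟩
  · have := loop ev k M hk hinj (p y) u (s y') (by rw [← c2, ← b1]; exact hw)
      (by rw [← c1, e1]) (by rw [c2, chi_append] at e2; omega)
    rw [this, List.nil_append] at c2
    rw [c2] at e3
    exact hne ((val ev (s y')).injective e3)
  · have := loop ev k M hk hinj (p y') u (s y) (by rw [← c2, ← b2]; exact hw)
      (by rw [← c1, e1]) (by rw [c2, chi_append] at e2; omega)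
    rw [this, List.nil_append] at c2
    rw [c2] at e3
    exact hne ((val ev (s y)).injective e3)

end Pool.Agent.H.MP_cfc732_al
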